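import Pool.Agent.HopfPinch.GeoFinal
import Pool.Agent.HopfPinch.RG6

set_option autoImplicit false

open scoped Manifold
open Pool.Agent.HopfPinch

namespace Pool.Agent.Results.MP_d404b9_ag.PinchedHopfRinged

/-- There is a compact reduced complex space which does not embed in any complex manifold: as a ringed
space it is not isomorphic to any subvariety `Y` (closed analytic subset, with the sheaf of restrictions of
holomorphic functions) of any complex manifold `M`. -/
theorem result : ∃ (X : Type) (_ : TopologicalSpace X) (O : FunSheaf X),
    CompactSpace X ∧ IsReducedComplexSpace O ∧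
    ∀ (N : ℕ) (M : Type*) [TopologicalSpace M] [T2Space M] [SecondCountableTopology M]
      [ChartedSpace (Fin N → ℂ) M] [IsManifold 𝓘(ℂ, Fin N → ℂ) 1 M] (Y : Set M),
      IsSubvariety N Y → ¬ O.RingedIsomorphic (subvarietySheaf N Y) := by
  refine ⟨HX, inferInstance, pinched, HX_compact, pinched_isReduced, ?_⟩
  intro N M _ _ _ _ _ Y hY h
  exact no_embedding N M Y hY (ringed_to_iso h)

end Pool.Agent.Results.MP_d404b9_ag.PinchedHopfRinged
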